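import Pool.Agent.R278.Equi.Main

/-!
# Renormings of nonseparable Hilbert spaces without uncountable equilateral sets
-/

open Cardinal

namespace Pool.Agent.Results.MP_55235b_an.NoUncountableEquilateral

open Pool.Agent.R278.Equi

/-- A norm on a real vector space, given as a function. -/
def IsNormFunction {X : Type} [AddCommGroup X] [Module ℝ X] (N : X → ℝ) : Prop :=
  (∀ x y, N (x + y) ≤ N x + N y) ∧ (∀ (a : ℝ) (x : X), N (a • x) = |a| * N x) ∧
    ∀ x, N x = 0 → x = 0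

/-- A set whose distinct points all have the same positive distance for the norm `N`. -/
def Equilateral {X : Type} [AddCommGroup X] (N : X → ℝ) (Y : Set X) : Prop :=
  ∃ δ : ℝ, 0 < δ ∧ ∀ y ∈ Y, ∀ y' ∈ Y, y ≠ y' → N (y - y') = δ

theorem exists_sets (Γ : Type) (hΓ : #Γ ≤ 𝔠) (m : ℕ) : ∃ S : ℕ → Set Γ,
    (∀ n ≤ m, S n = Set.univ) ∧
    ∀ (γ : Γ) (F : Finset Γ), γ ∉ F → ∃ n, γ ∈ S n ∧ ∀ φ ∈ F, φ ∉ S n := by
  classical
  have h1 : #Γ ≤ #(ℕ → Bool) := by
    rw [Cardinal.mk_arrow, Cardinal.mk_bool, Cardinal.mk_nat]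
    simpa using hΓ
  obtain ⟨r⟩ := (Cardinal.le_def _ _).1 h1
  obtain ⟨f, hf⟩ := exists_surjective_nat (Σ n : ℕ, (Fin n → Bool))
  refine ⟨fun k => if k ≤ m then Set.univ else
    {γ | ∀ i : Fin (f (k - (m + 1))).1, r γ i = (f (k - (m + 1))).2 i}, ?_, ?_⟩
  · intro n hn
    exact if_pos hn
  · intro γ F hγ
    have h2 : ∀ φ ∈ F, ∃ i, r φ i ≠ r γ i := by
      intro φ hφ
      by_contra hcon
      push Not at hcon
      have h3 : φ = γ := r.injective (funext hcon)
      exact hγ (h3 ▸ hφ)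
    choose! i hi using h2
    obtain ⟨k, hk⟩ := hf ⟨F.sup i + 1, fun j => r γ j⟩
    have hk2 : ¬ (k + (m + 1) ≤ m) := by omega
    refine ⟨k + (m + 1), ?_, ?_⟩
    · beta_reduce
      rw [if_neg hk2, Nat.add_sub_cancel, hk]
      intro j
      rfl
    · intro φ hφ
      beta_reduce
      rw [if_neg hk2, Nat.add_sub_cancel, hk]
      intro hcon
      exact hi φ hφ (hcon ⟨i φ, Nat.lt_succ_of_le (Finset.le_sup hφ)⟩)

/-- For every `Γ` of cardinality at most the continuum and every positive `ε` there is a norm on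
the Hilbert space `ℓ²(Γ)` which lies between the Hilbert norm and `1 + ε` times the Hilbert norm
and for which no uncountable set is equilateral. -/
theorem result (Γ : Type) (hΓ : #Γ ≤ 𝔠) (ε : ℝ) (hε : 0 < ε) :
    ∃ N : lp (fun _ : Γ => ℝ) 2 → ℝ, IsNormFunction N ∧
      (∀ x, ‖x‖ ≤ N x ∧ N x ≤ (1 + ε) * ‖x‖) ∧
      ∀ Y : Set (lp (fun _ : Γ => ℝ) 2), Equilateral N Y → Y.Countable := by
  obtain ⟨m, hm⟩ := exists_pow_lt_of_lt_one (show 0 < min ε 1 by positivity)
    (show (1 / 2 : ℝ) < 1 by norm_num)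
  obtain ⟨S, hS1, hS2⟩ := exists_sets Γ hΓ m
  have hS0 : S 0 = Set.univ := hS1 0 (Nat.zero_le m)
  let c : ℝ := ∑ n ∈ Finset.range (m + 1), (1 / 2 : ℝ) ^ n
  have hc : c = 2 - (1 / 2 : ℝ) ^ m := by
    simp only [c]
    rw [geom_sum_eq (by norm_num), pow_succ]
    ring
  have hpos : 0 < (1 / 2 : ℝ) ^ m := by positivity
  have hm1 : (1 / 2 : ℝ) ^ m < ε := hm.trans_le (min_le_left _ _)
  have hm2 : (1 / 2 : ℝ) ^ m < 1 := hm.trans_le (min_le_right _ _)
  have hc1 : 1 < c := by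
    rw [hc]
    linarith
  have hc0 : 0 < c := one_pos.trans hc1
  have hlow : ∀ x, c * ‖x‖ ≤ Pool.Agent.R278.Equi.N S x := by
    intro x
    simp only [c]
    rw [Finset.sum_mul]
    calc ∑ n ∈ Finset.range (m + 1), (1 / 2 : ℝ) ^ n * ‖x‖
        = ∑ n ∈ Finset.range (m + 1), (1 / 2 : ℝ) ^ n * ‖R (S n) x‖ := by
          apply Finset.sum_congr rfl
          intro n hn
          rw [hS1 n (Nat.lt_succ_iff.1 (Finset.mem_range.1 hn)), R_univ]
      _ ≤ Pool.Agent.R278.Equi.N S x :=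
          (summable_N S x).sum_le_tsum _ (fun n _ => by positivity)
  refine ⟨fun x => Pool.Agent.R278.Equi.N S x / c, ⟨?_, ?_, ?_⟩, ?_, ?_⟩
  · intro x y
    rw [← add_div]
    exact div_le_div_of_nonneg_right (N_add S x y) hc0.le
  · intro a x
    beta_reduce
    rw [N_smul, mul_div_assoc]
  · intro x hx
    have h1 : Pool.Agent.R278.Equi.N S x = 0 := by
      rcases div_eq_zero_iff.1 hx with h | h
      · exact h
      · exact absurd h hc0.ne'
    have h2 := hlow x
    rw [h1] at h2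
    have h3 : ‖x‖ ≤ 0 := by
      by_contra hcon
      have := mul_pos hc0 (not_le.1 hcon)
      linarith
    exact norm_le_zero_iff.1 h3
  · intro x
    constructor
    · rw [le_div_iff₀ hc0, mul_comm]
      exact hlow x
    · rw [div_le_iff₀ hc0]
      have h1 := N_le S x
      have h2 : 2 ≤ (1 + ε) * c := by
        rw [hc]
        nlinarith
      calc Pool.Agent.R278.Equi.N S x ≤ 2 * ‖x‖ := h1
        _ ≤ ((1 + ε) * c) * ‖x‖ := mul_le_mul_of_nonneg_right h2 (norm_nonneg x)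
        _ = (1 + ε) * ‖x‖ * c := by ring
  · rintro Y ⟨δ, hδ, hY⟩
    apply no_equilateral hS0 hS2 Y (mul_pos hδ hc0)
    intro x hx x' hx' hne
    have h1 := hY x hx x' hx' hne
    rwa [div_eq_iff hc0.ne'] at h1

end Pool.Agent.Results.MP_55235b_an.NoUncountableEquilateral
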